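import Pool.Agent.E8helper49.DD.Stm

/-!
# DD, pieces MP and A: the maximum principle for the icosahedral graph
-/

set_option autoImplicit false

namespace Pool.Agent.E8helper38.DD

open Pool.Agent.E8helper49.DD

/-- an inner vertex with no strictly higher neighbour has all neighbours at its level -/
lemma loc {w : Fin 12 → Fin 12 → ℝ} {g : Fin 12 → ℝ} (hw : Weights w) (hg : Harm w g)
    {v : Fin 12} (hv : 3 ≤ v) (h : ∀ i, g (nbr v i) ≤ g v) : ∀ i, g (nbr v i) = g v := by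
  have h1 := hg v hv
  have h2 : ∀ i ∈ (Finset.univ : Finset (Fin 5)), w v (nbr v i) * (g (nbr v i) - g v) ≤ 0 := by
    intro i _
    have h3 := hw.2 v i (Or.inl hv)
    have h4 := h i
    nlinarith
  intro i
  have h5 := (Finset.sum_eq_zero_iff_of_nonpos h2).1 h1 i (Finset.mem_univ i)
  have h3 := hw.2 v i (Or.inl hv)
  rcases mul_eq_zero.1 h5 with h6 | h6
  · exact absurd h6 h3.ne'
  · linarith

/-- the negative of an equilibrium -/
lemma harm_neg {w : Fin 12 → Fin 12 → ℝ} {g : Fin 12 → ℝ} (hg : Harm w g) :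
    Harm w (fun v => -g v) := by
  intro v hv
  have h1 := hg v hv
  have h2 : ∑ i, w v (nbr v i) * (-g (nbr v i) - -g v) =
      -∑ i, w v (nbr v i) * (g (nbr v i) - g v) := by
    rw [← Finset.sum_neg_distrib]
    apply Finset.sum_congr rfl
    intro i _
    ring
  rw [h2, h1, neg_zero]

lemma loc' {w : Fin 12 → Fin 12 → ℝ} {g : Fin 12 → ℝ} (hw : Weights w) (hg : Harm w g)
    {v : Fin 12} (hv : 3 ≤ v) (h : ∀ i, g v ≤ g (nbr v i)) : ∀ i, g (nbr v i) = g v := by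
  intro i
  have h1 := loc hw (harm_neg hg) hv (fun i => neg_le_neg (h i)) i
  linarith

theorem t_MP : S_MP := by
  intro w g M hw hg hM
  obtain ⟨v0, hv0⟩ := Finite.exists_max g
  suffices h : ∃ u : Fin 12, ¬ 3 ≤ u ∧ g u = g v0 by
    obtain ⟨u, hu, hgu⟩ := h
    intro v
    exact (hv0 v).trans (hgu ▸ hM u hu)
  by_contra hcon
  push Not at hcon
  have key : ∀ v : Fin 12, 3 ≤ v → g v = g v0 → ∀ i, g (nbr v i) = g v0 := by
    intro v hv hgv i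
    have h1 := loc hw hg hv (fun i => by rw [hgv]; exact hv0 _) i
    rw [h1, hgv]
  have c0 : g 0 ≠ g v0 := hcon 0 (by decide)
  have c1 : g 1 ≠ g v0 := hcon 1 (by decide)
  have c2 : g 2 ≠ g v0 := hcon 2 (by decide)
  have c3 : g 3 ≠ g v0 := fun h => c0 (key 3 (by decide) h 0)
  have c4 : g 4 ≠ g v0 := fun h => c0 (key 4 (by decide) h 0)
  have c5 : g 5 ≠ g v0 := fun h => c0 (key 5 (by decide) h 0)
  have c6 : g 6 ≠ g v0 := fun h => c1 (key 6 (by decide) h 1)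
  have c7 : g 7 ≠ g v0 := fun h => c2 (key 7 (by decide) h 1)
  have c8 : g 8 ≠ g v0 := fun h => c3 (key 8 (by decide) h 1)
  have c9 : g 9 ≠ g v0 := fun h => c4 (key 9 (by decide) h 1)
  have c10 : g 10 ≠ g v0 := fun h => c1 (key 10 (by decide) h 0)
  have c11 : g 11 ≠ g v0 := fun h => c6 (key 11 (by decide) h 4)
  fin_cases v0
  · exact c0 rfl
  · exact c1 rfl
  · exact c2 rfl
  · exact c3 rfl
  · exact c4 rfl
  · exact c5 rfl
  · exact c6 rfl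
  · exact c7 rfl
  · exact c8 rfl
  · exact c9 rfl
  · exact c10 rfl
  · exact c11 rfl

lemma ex5 (P : Fin 5 → Prop) : (∃ i, P i) ↔ P 0 ∨ P 1 ∨ P 2 ∨ P 3 ∨ P 4 := by
  constructor
  · rintro ⟨i, hi⟩
    fin_cases i
    · exact Or.inl hi
    · exact Or.inr (Or.inl hi)
    · exact Or.inr (Or.inr (Or.inl hi))
    · exact Or.inr (Or.inr (Or.inr (Or.inl hi)))
    · exact Or.inr (Or.inr (Or.inr (Or.inr hi)))
  · rintro (h | h | h | h | h)
    exacts [⟨_, h⟩, ⟨_, h⟩, ⟨_, h⟩, ⟨_, h⟩, ⟨_, h⟩]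

/-- the statement on signs -/
lemma signs (p m : Fin 12 → Prop) (hpm : ∀ v, ¬ (p v ∧ m v))
    (hloc : ∀ u : Fin 12, 3 ≤ u → ¬ p u → ¬ m u → ((∃ i, p (nbr u i)) ↔ ∃ i, m (nbr u i)))
    (hp : ∀ v, p v → p 0 ∨ p 1 ∨ p 2) (hm : ∀ v, m v → m 0 ∨ m 1 ∨ m 2)
    (ho : p 0 ∨ m 0 ∨ p 1 ∨ m 1 ∨ p 2 ∨ m 2)
    (v : Fin 12) (hv : 3 ≤ v) (h0 : ¬ p v) (h0' : ¬ m v)
    (h1 : ∀ i, ¬ p (nbr v i)) (h1' : ∀ i, ¬ m (nbr v i)) : False := by
  have e : ∀ u : Fin 12, 3 ≤ u → ¬ p u → ¬ m u →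
      ((p (nbr u 0) ∨ p (nbr u 1) ∨ p (nbr u 2) ∨ p (nbr u 3) ∨ p (nbr u 4)) ↔
        (m (nbr u 0) ∨ m (nbr u 1) ∨ m (nbr u 2) ∨ m (nbr u 3) ∨ m (nbr u 4))) := by
    intro u hu a b
    have := hloc u hu a b
    rwa [ex5, ex5] at this
  have l3 : ¬ p 3 → ¬ m 3 → ((p 0 ∨ p 2 ∨ p 7 ∨ p 8 ∨ p 4) ↔
      (m 0 ∨ m 2 ∨ m 7 ∨ m 8 ∨ m 4)) := e 3 (by decide)
  have l4 : ¬ p 4 → ¬ m 4 → ((p 0 ∨ p 3 ∨ p 8 ∨ p 9 ∨ p 5) ↔
      (m 0 ∨ m 3 ∨ m 8 ∨ m 9 ∨ m 5)) := e 4 (by decide)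
  have l5 : ¬ p 5 → ¬ m 5 → ((p 0 ∨ p 4 ∨ p 9 ∨ p 10 ∨ p 1) ↔
      (m 0 ∨ m 4 ∨ m 9 ∨ m 10 ∨ m 1)) := e 5 (by decide)
  have l6 : ¬ p 6 → ¬ m 6 → ((p 2 ∨ p 1 ∨ p 10 ∨ p 11 ∨ p 7) ↔
      (m 2 ∨ m 1 ∨ m 10 ∨ m 11 ∨ m 7)) := e 6 (by decide)
  have l7 : ¬ p 7 → ¬ m 7 → ((p 3 ∨ p 2 ∨ p 6 ∨ p 11 ∨ p 8) ↔
      (m 3 ∨ m 2 ∨ m 6 ∨ m 11 ∨ m 8)) := e 7 (by decide)
  have l8 : ¬ p 8 → ¬ m 8 → ((p 4 ∨ p 3 ∨ p 7 ∨ p 11 ∨ p 9) ↔
      (m 4 ∨ m 3 ∨ m 7 ∨ m 11 ∨ m 9)) := e 8 (by decide)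
  have l9 : ¬ p 9 → ¬ m 9 → ((p 5 ∨ p 4 ∨ p 8 ∨ p 11 ∨ p 10) ↔
      (m 5 ∨ m 4 ∨ m 8 ∨ m 11 ∨ m 10)) := e 9 (by decide)
  have l10 : ¬ p 10 → ¬ m 10 → ((p 1 ∨ p 5 ∨ p 9 ∨ p 11 ∨ p 6) ↔
      (m 1 ∨ m 5 ∨ m 9 ∨ m 11 ∨ m 6)) := e 10 (by decide)
  have l11 : ¬ p 11 → ¬ m 11 → ((p 10 ∨ p 9 ∨ p 8 ∨ p 7 ∨ p 6) ↔
      (m 10 ∨ m 9 ∨ m 8 ∨ m 7 ∨ m 6)) := e 11 (by decide)
  have hp3 := hp 3
  have hp4 := hp 4
  have hp5 := hp 5
  have hp6 := hp 6
  have hp7 := hp 7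
  have hp8 := hp 8
  have hp9 := hp 9
  have hp10 := hp 10
  have hp11 := hp 11
  have hm3 := hm 3
  have hm4 := hm 4
  have hm5 := hm 5
  have hm6 := hm 6
  have hm7 := hm 7
  have hm8 := hm 8
  have hm9 := hm 9
  have hm10 := hm 10
  have hm11 := hm 11
  have n0 := hpm 0
  have n1 := hpm 1
  have n2 := hpm 2
  have n3 := hpm 3
  have n4 := hpm 4
  have n5 := hpm 5
  have n6 := hpm 6
  have n7 := hpm 7
  have n8 := hpm 8
  have n9 := hpm 9
  have n10 := hpm 10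
  have n11 := hpm 11
  clear hp hm hpm e hloc
  have a0 := h1 0
  have a1 := h1 1
  have a2 := h1 2
  have a3 := h1 3
  have a4 := h1 4
  have b0 := h1' 0
  have b1 := h1' 1
  have b2 := h1' 2
  have b3 := h1' 3
  have b4 := h1' 4
  clear h1 h1'
  fin_cases v <;> first | (exact absurd hv (by decide)) | skip
  all_goals
    simp [nbr] at h0 h0' a0 a1 a2 a3 a4 b0 b1 b2 b3 b4
    clear hv
    grind

theorem t_A : S_A := by
  intro w g hw hg hne v hv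
  -- a degenerate vertex has all its neighbours at its level
  suffices h : ¬ ∀ i, g (nbr v i) = g v by
    constructor
    · by_contra hcon
      push Not at hcon
      exact h (loc' hw hg hv hcon)
    · by_contra hcon
      push Not at hcon
      exact h (loc hw hg hv hcon)
  intro hall
  have hMP := t_MP w g (g v) hw hg
  have hMP' := t_MP w (fun u => -g u) (-g v) hw (harm_neg hg)
  have hp : ∀ u, g v < g u → g v < g 0 ∨ g v < g 1 ∨ g v < g 2 := by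
    intro u hu
    by_contra hcon
    push Not at hcon
    have h1 := hMP (by
      intro x hx
      have hx' : x = 0 ∨ x = 1 ∨ x = 2 := by
        revert hx
        revert x
        decide
      rcases hx' with rfl | rfl | rfl
      · exact hcon.1
      · exact hcon.2.1
      · exact hcon.2.2) u
    linarith
  have hm : ∀ u, g u < g v → g 0 < g v ∨ g 1 < g v ∨ g 2 < g v := by
    intro u hu
    by_contra hcon
    push Not at hcon
    have h1 := hMP' (by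
      intro x hx
      have hx' : x = 0 ∨ x = 1 ∨ x = 2 := by
        revert hx
        revert x
        decide
      rcases hx' with rfl | rfl | rfl
      · exact neg_le_neg hcon.1
      · exact neg_le_neg hcon.2.1
      · exact neg_le_neg hcon.2.2) u
    linarith
  refine signs (fun u => g v < g u) (fun u => g u < g v) (fun u h => lt_asymm h.1 h.2) ?_ hp hm ?_
    v hv (lt_irrefl _) (lt_irrefl _) (fun i => by rw [hall i]; exact lt_irrefl _)
    (fun i => by rw [hall i]; exact lt_irrefl _)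
  · intro u hu h1 h2
    have hu' : g u = g v := le_antisymm (not_lt.1 h1) (not_lt.1 h2)
    constructor
    · rintro ⟨i, hi⟩
      by_contra hcon
      push Not at hcon
      have h3 := loc' hw hg hu (fun i => by rw [hu']; exact hcon i) i
      rw [h3, hu'] at hi
      exact lt_irrefl _ hi
    · rintro ⟨i, hi⟩
      by_contra hcon
      push Not at hcon
      have h3 := loc hw hg hu (fun i => by rw [hu']; exact hcon i) i
      rw [h3, hu'] at hi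
      exact lt_irrefl _ hi
  · by_contra hcon
    push Not at hcon
    obtain ⟨c1, c2, c3, c4, c5, c6⟩ := hcon
    apply hne
    constructor
    · linarith
    · linarith

end Pool.Agent.E8helper38.DD
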